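import Pool.Agent.Work.MP_7f4e13_co.Main
import Pool.Agent.Work.MP_7f4e13_co.Bridge

namespace Pool.Agent.Work.MP_7f4e13_co.Old.DoubleLadder

open Pool.Agent.Work.MP_7f4e13_co

theorem result : ∃ f : ℕ → ℕ → ℕ, ∀ k d : ℕ, 0 < k → 0 < d →
    ∀ (V : Type) [Finite V] (G : SimpleGraph V),
      IsEmpty (completeBipartiteGraph (Fin 1) (Fin d) ↪g G) → f k d ≤ treeAlpha G →
      IsIndMinor (SimpleGraph.pathGraph 3 □ SimpleGraph.pathGraph k) G := by
  choose f hf using main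
  exact ⟨fun k d => f k d + 1, fun k d _ _ V _ G h1 h2 => IndMinor.isIndMinor _ V G le_rfl
    (hf k d V G (starFree_of_isEmpty h1) (exists_indep_of_le_treeAlpha h2))⟩

end Pool.Agent.Work.MP_7f4e13_co.Old.DoubleLadder
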